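import Pool.Agent.Q61.DP.Stm

/-!
# DP-26: moving along a great circle
-/

namespace Pool.Agent.Q211.DP

open Metric Set Filter Topology
open Pool.Agent.Q61.DP

/-- The cosine of the angle of two unit vectors. -/
theorem cos_ang {x y : E3} (hx : ‖x‖ = 1) (hy : ‖y‖ = 1) :
    Real.cos (InnerProductGeometry.angle x y) = inner ℝ x y := by
  rw [InnerProductGeometry.cos_angle, hx, hy]; simp

/-- The angle of two unit vectors. -/
theorem ang_eq {x y : E3} {t : ℝ} (hx : ‖x‖ = 1) (hy : ‖y‖ = 1) (h0 : 0 ≤ t) (h1 : t ≤ Real.pi)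
    (h : inner ℝ x y = Real.cos t) : InnerProductGeometry.angle x y = t := by
  rw [InnerProductGeometry.angle, hx, hy, h]
  simp [Real.arccos_cos h0 h1]

/-- The unit tangent vector. -/
theorem exists_tau (n c : E3) (hn : ‖n‖ = 1) (hc : ‖c‖ = 1)
    (h0 : 0 < InnerProductGeometry.angle c n) (h1 : InnerProductGeometry.angle c n < Real.pi) :
    ∃ τ : E3, ‖τ‖ = 1 ∧ inner ℝ n τ = 0 ∧
      c = Real.cos (InnerProductGeometry.angle c n) • n +
        Real.sin (InnerProductGeometry.angle c n) • τ ∧
      ∀ s, mv n c s = Real.cos s • n - Real.sin s • τ := by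
  have hcn := cos_ang hc hn
  set R := InnerProductGeometry.angle c n with hR
  have hs : 0 < Real.sin R := Real.sin_pos_of_pos_of_lt_pi h0 h1
  have hnn : inner ℝ n n = (1:ℝ) := by rw [real_inner_self_eq_norm_sq, hn]; norm_num
  have hcc : inner ℝ c c = (1:ℝ) := by rw [real_inner_self_eq_norm_sq, hc]; norm_num
  have hnc : inner ℝ n c = Real.cos R := by rw [real_inner_comm, hcn]
  refine ⟨(Real.sin R)⁻¹ • (c - Real.cos R • n), ?_, ?_, ?_, ?_⟩
  · have h2 : ‖(Real.sin R)⁻¹ • (c - Real.cos R • n)‖ ^ 2 = 1 := by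
      rw [← real_inner_self_eq_norm_sq]
      simp only [inner_smul_left, inner_smul_right, inner_sub_left, inner_sub_right, hnn, hcc,
        hnc, ← hcn, RCLike.conj_to_real]
      field_simp
      have := Real.sin_sq_add_cos_sq R
      linarith
    have h3 : 0 ≤ ‖(Real.sin R)⁻¹ • (c - Real.cos R • n)‖ := norm_nonneg _
    nlinarith
  · simp only [inner_smul_right, inner_sub_right, hnn, hnc]
    ring
  · rw [smul_smul, mul_inv_cancel₀ hs.ne', one_smul]
    abel
  · intro s
    rw [mv, ← hR, smul_smul, div_eq_mul_inv]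

/-- DP-26. -/
theorem mv_all : S_MV := by
  intro n c hn hc h0 h1
  obtain ⟨τ, hτ, hnτ, hcτ, hmv⟩ := exists_tau n c hn hc h0 h1
  have hcn := cos_ang hc hn
  set R := InnerProductGeometry.angle c n with hR
  have hs : 0 < Real.sin R := Real.sin_pos_of_pos_of_lt_pi h0 h1
  have hnn : inner ℝ n n = (1:ℝ) := by rw [real_inner_self_eq_norm_sq, hn]; norm_num
  have hττ : inner ℝ τ τ = (1:ℝ) := by rw [real_inner_self_eq_norm_sq, hτ]; norm_num
  have hcc : inner ℝ c c = (1:ℝ) := by rw [real_inner_self_eq_norm_sq, hc]; norm_num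
  have hτn : inner ℝ τ n = (0:ℝ) := by rw [real_inner_comm, hnτ]
  have hct : inner ℝ c τ = Real.sin R := by
    rw [hcτ]
    simp only [inner_add_left, inner_smul_left, hnτ, hττ, RCLike.conj_to_real]
    ring
  have hnorm : ∀ s, ‖mv n c s‖ = 1 := by
    intro s
    have h2 : ‖mv n c s‖ ^ 2 = 1 := by
      rw [← real_inner_self_eq_norm_sq, hmv]
      simp only [inner_smul_left, inner_smul_right, inner_sub_left, inner_sub_right, hnn, hττ,
        hnτ, hτn, RCLike.conj_to_real]
      have := Real.sin_sq_add_cos_sq s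
      linarith
    have h3 : 0 ≤ ‖mv n c s‖ := norm_nonneg _
    nlinarith
  have hang : ∀ s, 0 ≤ s → R + s ≤ Real.pi → InnerProductGeometry.angle c (mv n c s) = R + s := by
    intro s hs0 hs1
    refine ang_eq hc (hnorm s) (by linarith) hs1 ?_
    rw [hmv]
    simp only [inner_smul_right, inner_sub_right, ← hcn, hct, Real.cos_add]
    ring
  refine ⟨hnorm, ?_, ?_, ?_, hang, ?_, ?_⟩
  · have : mv n c = fun s => Real.cos s • n - Real.sin s • τ := funext hmv
    rw [this]
    fun_prop
  · rw [hmv]; simp
  · intro s hs1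
    refine ang_eq (hnorm s) hn (abs_nonneg _) hs1 ?_
    rw [hmv]
    simp only [inner_smul_left, inner_sub_left, hnn, hτn, RCLike.conj_to_real, Real.cos_abs]
    ring
  · intro s t hs0 hs1
    have ha := hang s hs0 hs1.le
    have hsR : 0 < Real.sin (R + s) := Real.sin_pos_of_pos_of_lt_pi (by linarith) hs1
    rw [mv, ha, hmv s, hmv (s + t)]
    have e1 : Real.cos R = Real.cos (R + s) * Real.cos s + Real.sin (R + s) * Real.sin s := by
      rw [← Real.cos_sub]; congr 1; ring
    have e2 : Real.sin R = Real.sin (R + s) * Real.cos s - Real.cos (R + s) * Real.sin s := by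
      rw [← Real.sin_sub]; congr 1; ring
    have e3 : c - Real.cos (R + s) • (Real.cos s • n - Real.sin s • τ) =
        Real.sin (R + s) • (Real.sin s • n + Real.cos s • τ) := by
      rw [sub_eq_iff_eq_add, hcτ]
      nth_rewrite 1 [e1]
      nth_rewrite 1 [e2]
      module
    rw [e3, smul_smul, div_mul_cancel₀ _ hsR.ne', Real.cos_add, Real.sin_add]
    module
  · intro t p ht0 ht1 hp hpn hcp
    have htri : InnerProductGeometry.angle c p ≤
        InnerProductGeometry.angle c n + InnerProductGeometry.angle n p :=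
      InnerProductGeometry.angle_le_angle_add_angle c n p
    rw [InnerProductGeometry.angle_comm n p, ← hR] at htri
    have e1 : InnerProductGeometry.angle p n = t := by linarith
    have e2 : InnerProductGeometry.angle c p = R + t := by linarith
    have i1 : inner ℝ p n = Real.cos t := by rw [← cos_ang hp hn, e1]
    have i2 : inner ℝ c p = Real.cos (R + t) := by rw [← cos_ang hc hp, e2]
    have i3 : inner ℝ p τ = -Real.sin t := by
      have h3 : inner ℝ c p = Real.cos R * inner ℝ p n + Real.sin R * inner ℝ p τ := by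
        nth_rewrite 1 [hcτ]
        simp only [inner_add_left, inner_smul_left, RCLike.conj_to_real]
        rw [real_inner_comm n p, real_inner_comm τ p]
      rw [i2, i1, Real.cos_add] at h3
      have h4 : Real.sin R * (inner ℝ p τ + Real.sin t) = 0 := by linarith
      rcases mul_eq_zero.1 h4 with h5 | h5
      · exact absurd h5 hs.ne'
      · linarith
    have h6 : ‖p - mv n c t‖ ^ 2 = 0 := by
      rw [norm_sub_sq_real, hp, hnorm t, hmv]
      simp only [inner_smul_right, inner_sub_right, i1, i3]
      have := Real.sin_sq_add_cos_sq t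
      linarith
    have h7 : ‖p - mv n c t‖ = 0 := by simpa using h6
    exact sub_eq_zero.1 (norm_eq_zero.1 h7)

end Pool.Agent.Q211.DP
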