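import Pool.Agent.Q61.DP.Stm

/-!
# DP-39: a Phragmén–Lindelöf lemma in a domain with a non-dense closure
-/

namespace Pool.Agent.Q211.DP

open Metric Set Filter Topology
open Pool.Agent.Q61.DP

/-- One half of the statement. -/
theorem p1aux (G : Set ℂ) (F : ℂ → ℂ) (M : ℝ) (z₀ : ℂ) (hG : IsOpen G) (hz₀ : z₀ ∉ closure G)
    (hF : DiffContOnCl ℂ F G) (hM : ∀ z ∈ G, ‖F z‖ ≤ M)
    (hfr : ∀ z ∈ frontier G, (F z).im = 0) : ∀ z ∈ G, (F z).im ≤ 0 := by
  obtain ⟨d, hd, hball⟩ := Metric.isOpen_iff.mp isClosed_closure.isOpen_compl z₀ hz₀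
  have hdist : ∀ z ∈ closure G, d ≤ ‖z - z₀‖ := by
    intro z hz
    by_contra h
    push Not at h
    exact hball (mem_ball_iff_norm.2 h) hz
  have hMc : ∀ z ∈ closure G, ‖F z‖ ≤ M := fun z hz =>
    le_on_closure (f := fun z => ‖F z‖) (g := fun _ => M) hM hF.continuousOn.norm
      continuousOn_const hz
  intro z hz
  have hzc : z ∈ closure G := subset_closure hz
  have hM0 : 0 ≤ M := (norm_nonneg _).trans (hM z hz)
  have key : ∀ n : ℕ, Real.exp (n * (F z).im) * (d / ‖z - z₀‖) ≤ 1 := by
    intro n
    have hne : ∀ w ∈ closure G, w - z₀ ≠ 0 := by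
      intro w hw h
      have h1 := hdist w hw
      rw [h, norm_zero] at h1
      linarith
    set H : ℂ → ℂ := fun w => Complex.exp (-(Complex.I * n * F w)) * ((d : ℂ) / (w - z₀)) with hH
    have hHn : ∀ w, ‖H w‖ = Real.exp (n * (F w).im) * (d / ‖w - z₀‖) := by
      intro w
      rw [hH]
      simp only [norm_mul, norm_div, Complex.norm_exp, Complex.norm_real, Real.norm_eq_abs,
        abs_of_pos hd]
      congr 2
      simp [Complex.mul_re, Complex.mul_im]
    have hHd : DiffContOnCl ℂ H G := by
      refine ⟨?_, ?_⟩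
      · refine DifferentiableOn.mul ?_ ?_
        · exact ((hF.differentiableOn.const_mul _).neg).cexp
        · exact (differentiableOn_const _).div (differentiableOn_id.sub (differentiableOn_const _))
            (fun w hw => hne w (subset_closure hw))
      · refine ContinuousOn.mul ?_ ?_
        · exact ((continuousOn_const.mul hF.continuousOn).neg).cexp
        · exact continuousOn_const.div (continuousOn_id.sub continuousOn_const)
            (fun w hw => hne w hw)
    set R : ℝ := Real.exp (n * M) * d + ‖z - z₀‖ + 1 with hR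
    have hR1 : ‖z - z₀‖ < R := by
      have : 0 < Real.exp (n * M) * d := by positivity
      linarith
    have hR2 : Real.exp (n * M) * d ≤ R := by
      have := norm_nonneg (z - z₀)
      linarith
    have hU : Bornology.IsBounded (G ∩ ball z₀ R) := isBounded_ball.subset inter_subset_right
    have hzU : z ∈ closure (G ∩ ball z₀ R) := subset_closure ⟨hz, mem_ball_iff_norm.2 hR1⟩
    have hfrU : ∀ w ∈ frontier (G ∩ ball z₀ R), ‖H w‖ ≤ 1 := by
      intro w hw
      rw [(hG.inter isOpen_ball).frontier_eq] at hw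
      obtain ⟨hw1, hw2⟩ := hw
      have hwc : w ∈ closure G := closure_mono inter_subset_left hw1
      have hwd := hdist w hwc
      have hwpos : 0 < ‖w - z₀‖ := lt_of_lt_of_le hd hwd
      rw [hHn w]
      by_cases hwG : w ∈ G
      · have hwb : w ∉ ball z₀ R := fun h => hw2 ⟨hwG, h⟩
        rw [mem_ball_iff_norm, not_lt] at hwb
        have h1 : (F w).im ≤ M := (Complex.im_le_norm _).trans (hMc w hwc)
        have h2 : Real.exp (n * (F w).im) ≤ Real.exp (n * M) :=
          Real.exp_le_exp.2 (mul_le_mul_of_nonneg_left h1 (Nat.cast_nonneg _))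
        rw [← mul_div_assoc, div_le_one hwpos]
        calc Real.exp (n * (F w).im) * d ≤ Real.exp (n * M) * d :=
              mul_le_mul_of_nonneg_right h2 hd.le
          _ ≤ R := hR2
          _ ≤ ‖w - z₀‖ := hwb
      · have hwf : w ∈ frontier G := by
          rw [hG.frontier_eq]
          exact ⟨hwc, hwG⟩
        rw [hfr w hwf, mul_zero, Real.exp_zero, one_mul, div_le_one hwpos]
        exact hwd
    have := Complex.norm_le_of_forall_mem_frontier_norm_le hU
      (hHd.mono inter_subset_left) hfrU hzU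
    rwa [hHn z] at this
  by_contra hpos
  push Not at hpos
  have hD : 0 < ‖z - z₀‖ := lt_of_lt_of_le hd (hdist z hzc)
  obtain ⟨n, hn⟩ := exists_nat_gt (‖z - z₀‖ / d / (F z).im)
  have h1 : ‖z - z₀‖ / d < n * (F z).im := by rwa [div_lt_iff₀ hpos] at hn
  have h2 : n * (F z).im + 1 ≤ Real.exp (n * (F z).im) := Real.add_one_le_exp _
  have h3 := key n
  rw [← mul_div_assoc, div_le_one hD] at h3
  have h4 : ‖z - z₀‖ < n * (F z).im * d := by rwa [div_lt_iff₀ hd] at h1
  have h5 : n * (F z).im * d ≤ Real.exp (n * (F z).im) * d :=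
    mul_le_mul_of_nonneg_right (by linarith) hd.le
  linarith

/-- DP-39. -/
theorem p1 : S_P1 := by
  intro G F M z₀ hG hz₀ hF hM hfr z hz
  refine le_antisymm (p1aux G F M z₀ hG hz₀ hF hM hfr z hz) ?_
  have h := p1aux G (fun w => -F w) M z₀ hG hz₀ hF.neg (fun w hw => by simpa using hM w hw)
    (fun w hw => by simp [hfr w hw]) z hz
  simpa using h

end Pool.Agent.Q211.DP
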